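import Mathlib

/-!
# Graphs with a unique proper sum-colouring weighting from a three-element set

The triangle, and more generally every disjoint union of `t ≥ 1` triangles, has exactly one edge
`S`-weighting, up to isomorphism, that properly colours the vertices by sums, for every set `S` of
three reals, in particular for `S = {1, 2, 3}`.
-/

set_option autoImplicit false

namespace Pool.Agent.Results.MP_9e9a14_co.Triangles

open Finset Classical

/-- The sum of the weights of the edges of `G` at the vertex `v`. -/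
noncomputable def vertexSum {V : Type} [Fintype V] (G : SimpleGraph V) (w : G.edgeSet → ℝ)
    (v : V) : ℝ :=
  ∑ e ∈ univ.filter (fun e : G.edgeSet => v ∈ (e : Sym2 V)), w e

/-- `w` is an edge `S`-weighting of `G` which properly colours the vertices by sums. -/
def IsProperWeighting {V : Type} [Fintype V] (S : Set ℝ) (G : SimpleGraph V)
    (w : G.edgeSet → ℝ) : Prop :=
  (∀ e, w e ∈ S) ∧ ∀ u v, G.Adj u v → vertexSum G w u ≠ vertexSum G w v

/-- Two edge weightings are isomorphic if some automorphism of `G` carries one to the other. -/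
def Isomorphic {V : Type} (G : SimpleGraph V) (w w' : G.edgeSet → ℝ) : Prop :=
  ∃ φ : G ≃g G, ∀ e : G.edgeSet, w' (φ.mapEdgeSet e) = w e

/-- `G` is uniquely `S`-weight colourable. -/
def UniquelyWeightColourable {V : Type} [Fintype V] (S : Set ℝ) (G : SimpleGraph V) : Prop :=
  (∃ w, IsProperWeighting S G w) ∧
    ∀ w w', IsProperWeighting S G w → IsProperWeighting S G w' → Isomorphic G w w'

/-- The disjoint union of `t` triangles. -/
def triangles (t : ℕ) : SimpleGraph (Fin t × Fin 3) where
  Adj p q := p.1 = q.1 ∧ p.2 ≠ q.2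
  symm := ⟨fun _ _ h => ⟨h.1.symm, h.2.symm⟩⟩
  loopless := ⟨fun _ h => h.2 rfl⟩

variable {t : ℕ}

lemma adj_iff (p q : Fin t × Fin 3) : (triangles t).Adj p q ↔ p.1 = q.1 ∧ p.2 ≠ q.2 := Iff.rfl

/-- The edge of the triangle `i` opposite to the vertex `x`. -/
def opp (p : Fin t × Fin 3) : (triangles t).edgeSet :=
  ⟨s((p.1, p.2 + 1), (p.1, p.2 + 2)), by
    rw [SimpleGraph.mem_edgeSet, adj_iff]
    refine ⟨rfl, ?_⟩
    have : ∀ x : Fin 3, x + 1 ≠ x + 2 := by decide
    exact this p.2⟩

lemma opp_surj (e : (triangles t).edgeSet) : ∃ p, opp p = e := by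
  obtain ⟨e, he⟩ := e
  induction e using Sym2.ind with
  | _ p q =>
    obtain ⟨i, x⟩ := p
    obtain ⟨j, y⟩ := q
    rw [SimpleGraph.mem_edgeSet, adj_iff] at he
    obtain ⟨h1, h2⟩ := he
    simp only at h1 h2
    subst h1
    have key : ∀ x y : Fin 3, x ≠ y → ∃ z : Fin 3, (z + 1 = x ∧ z + 2 = y) ∨ (z + 1 = y ∧ z + 2 = x) := by
      decide
    obtain ⟨z, hz | hz⟩ := key x y h2
    · refine ⟨(i, z), Subtype.ext ?_⟩
      simp only [opp, hz.1, hz.2]
    · refine ⟨(i, z), Subtype.ext ?_⟩
      simp only [opp, hz.1, hz.2]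
      exact Sym2.eq_swap

lemma mem_opp (p q : Fin t × Fin 3) : q ∈ ((opp p : (triangles t).edgeSet) : Sym2 (Fin t × Fin 3)) ↔
    q.1 = p.1 ∧ q.2 ≠ p.2 := by
  obtain ⟨i, x⟩ := p
  obtain ⟨j, y⟩ := q
  simp only [opp, Sym2.mem_iff, Prod.mk.injEq]
  have key : ∀ x y : Fin 3, (y = x + 1 ∨ y = x + 2) ↔ y ≠ x := by decide
  rw [← key]
  tauto

lemma opp_inj {p q : Fin t × Fin 3} (h : opp p = opp q) : p = q := by
  have h1 : ∀ r : Fin t × Fin 3, (r.1 = p.1 ∧ r.2 ≠ p.2) ↔ (r.1 = q.1 ∧ r.2 ≠ q.2) := by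
    intro r
    rw [← mem_opp, ← mem_opp, h]
  obtain ⟨i, x⟩ := p
  obtain ⟨j, y⟩ := q
  simp only at h1
  have hne : ∀ z : Fin 3, z + 1 ≠ z := by decide
  have hi : i = j := ((h1 (i, x + 1)).1 ⟨rfl, hne x⟩).1
  subst hi
  by_contra hxy
  have hxy' : y ≠ x := fun h => hxy (by rw [h])
  exact ((h1 (i, y)).1 ⟨rfl, hxy'⟩).2 rfl

/-- The edges of the union of triangles correspond to its vertices. -/
noncomputable def oppEquiv (t : ℕ) : (Fin t × Fin 3) ≃ (triangles t).edgeSet :=
  Equiv.ofBijective opp ⟨fun _ _ h => opp_inj h, opp_surj⟩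

lemma oppEquiv_apply (p : Fin t × Fin 3) : oppEquiv t p = opp p := rfl

lemma vertexSum_eq (w : (triangles t).edgeSet → ℝ) (q : Fin t × Fin 3) :
    vertexSum (triangles t) w q = (∑ x : Fin 3, w (opp (q.1, x))) - w (opp q) := by
  have h1 : vertexSum (triangles t) w q =
      ∑ p : Fin t × Fin 3, if q.1 = p.1 ∧ q.2 ≠ p.2 then w (opp p) else 0 := by
    unfold vertexSum
    rw [Finset.sum_filter, ← Equiv.sum_comp (oppEquiv t)]
    refine Finset.sum_congr rfl fun p _ => ?_
    rw [oppEquiv_apply]
    simp only [mem_opp]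
  rw [h1, Fintype.sum_prod_type, Finset.sum_eq_single q.1]
  · have h2 : ∀ x : Fin 3, (if q.1 = q.1 ∧ q.2 ≠ x then w (opp (q.1, x)) else 0) =
        w (opp (q.1, x)) - (if q.2 = x then w (opp (q.1, x)) else 0) := by
      intro x
      by_cases h : q.2 = x
      · simp [h]
      · simp [h]
    rw [Finset.sum_congr rfl (fun x _ => h2 x), Finset.sum_sub_distrib]
    simp
  · intro i _ hi
    refine Finset.sum_eq_zero fun x _ => ?_
    rw [if_neg]
    exact fun h => hi h.1.symm
  · intro h
    exact absurd (Finset.mem_univ _) h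

lemma proper_iff (S : Set ℝ) (w : (triangles t).edgeSet → ℝ) :
    IsProperWeighting S (triangles t) w ↔
      (∀ p, w (opp p) ∈ S) ∧ ∀ i, Function.Injective fun x : Fin 3 => w (opp (i, x)) := by
  unfold IsProperWeighting
  constructor
  · rintro ⟨h1, h2⟩
    refine ⟨fun p => h1 _, fun i x y hxy => ?_⟩
    by_contra hne
    refine h2 (i, x) (i, y) ⟨rfl, hne⟩ ?_
    rw [vertexSum_eq, vertexSum_eq]
    simp only at hxy ⊢
    rw [hxy]
  · rintro ⟨h1, h2⟩
    refine ⟨fun e => ?_, fun u v huv => ?_⟩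
    · obtain ⟨p, rfl⟩ := opp_surj e
      exact h1 p
    · obtain ⟨i, x⟩ := u
      obtain ⟨j, y⟩ := v
      obtain ⟨hij, hxy⟩ := huv
      simp only at hij hxy
      subst hij
      rw [vertexSum_eq, vertexSum_eq]
      intro h
      simp only at h
      have h3 : w (opp (i, x)) = w (opp (i, y)) := by linarith
      exact hxy (h2 i h3)

/-- For every `t ≥ 1` the disjoint union of `t` triangles is uniquely `S`-weight colourable for
every set `S` of three reals. -/
theorem result : ∀ t : ℕ, 1 ≤ t → (triangles t).edgeSet.Nonempty ∧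
    ∀ S : Set ℝ, S.ncard = 3 → UniquelyWeightColourable S (triangles t) := by
  intro t ht
  refine ⟨⟨_, (opp ((⟨0, ht⟩ : Fin t), (0 : Fin 3))).2⟩, fun S hS => ?_⟩
  have hfin : S.Finite := Set.finite_of_ncard_ne_zero (by rw [hS]; norm_num)
  have hfS : Fintype S := hfin.fintype
  have hcard : Fintype.card S = 3 := by
    rw [← hS, ← Nat.card_coe_set_eq, Nat.card_eq_fintype_card]
  have hE : Nonempty (Fin 3 ≃ S) := by
    refine ⟨Fintype.equivOfCardEq ?_⟩
    rw [hcard, Fintype.card_fin]
  obtain ⟨E⟩ := hE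
  constructor
  · refine ⟨fun e => E ((oppEquiv t).symm e).2, ?_⟩
    rw [proper_iff]
    refine ⟨fun p => (E _).2, fun i x y hxy => ?_⟩
    simp only [← oppEquiv_apply, Equiv.symm_apply_apply] at hxy
    exact E.injective (Subtype.ext hxy)
  · intro w w' hw hw'
    rw [proper_iff] at hw hw'
    -- the restriction of a proper weighting to a triangle is a bijection onto `S`
    have hb : ∀ (w : (triangles t).edgeSet → ℝ) (h0 : ∀ p, w (opp p) ∈ S)
        (_ : ∀ i, Function.Injective fun x : Fin 3 => w (opp (i, x))) (i : Fin t),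
        Function.Bijective (fun x : Fin 3 => (⟨w (opp (i, x)), h0 _⟩ : S)) := by
      intro w h1 h2 i
      rw [Fintype.bijective_iff_injective_and_card]
      refine ⟨fun x y hxy => h2 i (congrArg Subtype.val hxy), ?_⟩
      rw [hcard, Fintype.card_fin]
    let B : Fin t → (Fin 3 ≃ S) := fun i => Equiv.ofBijective _ (hb w hw.1 hw.2 i)
    let B' : Fin t → (Fin 3 ≃ S) := fun i => Equiv.ofBijective _ (hb w' hw'.1 hw'.2 i)
    let τ : Fin t → (Fin 3 ≃ Fin 3) := fun i => (B i).trans (B' i).symm
    have hτ : ∀ i x, w' (opp (i, τ i x)) = w (opp (i, x)) := by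
      intro i x
      have h1 : B' i (τ i x) = B i x := by
        simp [τ]
      exact congrArg Subtype.val h1
    let Φ : (Fin t × Fin 3) ≃ (Fin t × Fin 3) :=
      { toFun := fun p => (p.1, τ p.1 p.2)
        invFun := fun p => (p.1, (τ p.1).symm p.2)
        left_inv := fun p => by simp
        right_inv := fun p => by simp }
    let φ : triangles t ≃g triangles t :=
      { toEquiv := Φ
        map_rel_iff' := by
          rintro ⟨i, x⟩ ⟨j, y⟩
          rw [adj_iff, adj_iff]
          simp only [Φ, Equiv.coe_fn_mk]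
          constructor
          · rintro ⟨h1, h2⟩
            subst h1
            exact ⟨rfl, fun h => h2 (by rw [h])⟩
          · rintro ⟨h1, h2⟩
            subst h1
            exact ⟨rfl, fun h => h2 ((τ i).injective h)⟩ }
    refine ⟨φ, fun e => ?_⟩
    obtain ⟨p, rfl⟩ := opp_surj e
    have hφ : φ.mapEdgeSet (opp p) = opp (Φ p) := by
      apply Subtype.ext
      have h1 : ∀ q, q ∈ ((φ.mapEdgeSet (opp p) : (triangles t).edgeSet) : Sym2 (Fin t × Fin 3)) ↔
          q ∈ ((opp (Φ p) : (triangles t).edgeSet) : Sym2 (Fin t × Fin 3)) := by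
        intro q
        rw [mem_opp]
        have h2 : ((φ.mapEdgeSet (opp p) : (triangles t).edgeSet) : Sym2 (Fin t × Fin 3)) =
            Sym2.map Φ (opp p : (triangles t).edgeSet) := rfl
        rw [h2, Sym2.mem_map]
        constructor
        · rintro ⟨r, hr, rfl⟩
          rw [mem_opp] at hr
          obtain ⟨h3, h4⟩ := hr
          obtain ⟨i, x⟩ := p
          obtain ⟨j, y⟩ := r
          simp only at h3 h4
          subst h3
          simp only [Φ, Equiv.coe_fn_mk]
          exact ⟨trivial, fun h => h4 ((τ j).injective h)⟩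
        · rintro ⟨h3, h4⟩
          refine ⟨Φ.symm q, ?_, by simp⟩
          rw [mem_opp]
          obtain ⟨i, x⟩ := p
          obtain ⟨j, y⟩ := q
          simp only [Φ, Equiv.coe_fn_mk] at h3 h4
          subst h3
          simp only [Φ, Equiv.coe_fn_symm_mk]
          refine ⟨trivial, fun h => h4 ?_⟩
          rw [← h]
          simp
      exact Sym2.ext h1
    rw [hφ]
    exact hτ p.1 p.2

end Pool.Agent.Results.MP_9e9a14_co.Triangles
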